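import Pool.Agent.H84.HT.Submersion

/-!
# Hitchin–Thorpe inequality for the base of an Einstein Riemannian submersion, any dimension at least 5

Let `(M, g)` be a closed Einstein manifold of dimension `4 + k` (`k` arbitrary), `Ric = lam g`, and
`π : M → B` a Riemannian submersion with totally geodesic fibres onto a closed oriented Riemannian
manifold `B` of dimension four with scalar curvature `s_B`.  Then

  `2 χ(B) - 3 |τ(B)| ≥ 1 / (48 π²) ∫_B ((s_B - 5 lam)² + 7 lam²) ≥ 7 lam² / (48 π²) vol(B)`,

and if `lam ≤ 0` then the horizontal distribution is integrable (the O'Neill tensor vanishes) and `B`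
is Einstein with the same constant.  In particular `2 χ(B) ≥ 3 |τ(B)|`, and equality forces `lam = 0`.
So no manifold fibring over, say, a connected sum of `m ≥ 4` copies of the complex projective plane
has an Einstein metric for which the fibration is a Riemannian submersion with totally geodesic fibres
(for `m = 4` up to Ricci-flat metrics with integrable horizontal distribution).

Proof.  O'Neill's equations give `Ric_B = lam + E / 2` with `E i j = ∑ F i l a F j l a` and, with
`T = ∑ |F i j|²`, `s_B = 4 lam + T / 2`; so `T` is constant along the fibres, the vertical parts `F i j`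
of the brackets of basic fields are Killing fields of the fibres, and Bochner's formula on the fibres
with the vertical Einstein equation gives `lam T ≥ (1/4) ∑ ⟨F i j, F l m⟩²`.  An algebraic inequality for
the Gram matrix of the `F i j` in the splitting of two-forms into self-dual and anti-self-dual ones
bounds the right side below by `|E|²/2 - T²/12`, and this gives
`(2/3) s_B² - 2 |Ric_B|² ≥ (1/3) ((s_B - 5 lam)² + 7 lam²)`.  The Gauss–Bonnet and signature integrands
then give the claim, as `|W^±|² ≥ 0`.

Modelling.  `SubmersionPoint k lam` (file `Pool/Agent/H84/HT/Submersion.lean`) holds, at a point of `M`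
and in an adapted orthonormal frame, the curvature tensors of `M`, `B` and the fibre and the `F i j`, with
the classical facts used: the symmetries of the curvature tensor, the Einstein equation, O'Neill's and
Gauss' equations for totally geodesic fibres, the Killing equation's consequence `Δ F = - Ric_F F`, and the
vanishing of the Laplacian along the fibre of the basic function `∑ |F i j|²`.  That these hold for
Riemannian submersions is not formalised.  `D b` is the datum at some point of the fibre over `b`; the
Euler and signature integrands of the base are the functions `e` and `sg`, whose integrals are `χ(B)` and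
`τ(B)` by the theorems of Chern–Gauss–Bonnet and Hirzebruch.
-/

namespace Pool.Agent.Results.MP_ebfab8_gt.SubmersionHitchinThorpe

open MeasureTheory Pool.Agent.H84.HT

/-- The Euler integrand `(|R|² - 4 |Ric|² + s²) / (32 π²)` in dimension four. -/
noncomputable def eulerDensity (R : Fin 4 → Fin 4 → Fin 4 → Fin 4 → ℝ) : ℝ :=
  (normSq R - 4 * ricSq R + scal R ^ 2) / (32 * Real.pi ^ 2)

/-- The signature integrand in dimension four,
`(1 / (12 π²)) ∑ (R 0 1 a b R 2 3 a b - R 0 2 a b R 1 3 a b + R 0 3 a b R 1 2 a b)`. -/
noncomputable def signatureDensity (R : Fin 4 → Fin 4 → Fin 4 → Fin 4 → ℝ) : ℝ :=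
  pontr R / (12 * Real.pi ^ 2)

theorem pointwise {k : ℕ} {lam : ℝ} (D : SubmersionPoint k lam) :
    ((scal D.RB - 5 * lam) ^ 2 + 7 * lam ^ 2) / (48 * Real.pi ^ 2) ≤
      2 * eulerDensity D.RB - 3 * |signatureDensity D.RB| := by
  have h := D.ineq'
  have hp : (0 : ℝ) < Real.pi ^ 2 := by positivity
  unfold eulerDensity signatureDensity
  rw [abs_div, abs_of_pos (show (0 : ℝ) < 12 * Real.pi ^ 2 by positivity)]
  have e1 : |4 * pontr D.RB| = 4 * |pontr D.RB| := by
    rw [abs_mul]; norm_num
  rw [e1] at h
  have e2 : 2 * ((normSq D.RB - 4 * ricSq D.RB + scal D.RB ^ 2) / (32 * Real.pi ^ 2)) -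
      3 * (|pontr D.RB| / (12 * Real.pi ^ 2)) =
      (3 * (normSq D.RB - 4 * ricSq D.RB + scal D.RB ^ 2 - 4 * |pontr D.RB|)) /
        (48 * Real.pi ^ 2) := by
    field_simp
    ring
  rw [e2]
  apply div_le_div_of_nonneg_right _ (by positivity)
  linarith

/-- Hitchin–Thorpe inequality for the four-dimensional base of an Einstein Riemannian submersion with
totally geodesic fibres. -/
theorem result (k : ℕ) (lam : ℝ) (B : Type) [TopologicalSpace B] [CompactSpace B]
    [MeasurableSpace B] [BorelSpace B] (vol : Measure B) [IsFiniteMeasure vol]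
    (D : B → SubmersionPoint k lam)
    (he : Continuous fun b => eulerDensity (D b).RB)
    (hsg : Continuous fun b => signatureDensity (D b).RB)
    (hs : Continuous fun b => scal (D b).RB) :
    -- the inequality with the scalar curvature of the base
    (∫ b, ((scal (D b).RB - 5 * lam) ^ 2 + 7 * lam ^ 2) ∂vol) / (48 * Real.pi ^ 2) ≤
        2 * (∫ b, eulerDensity (D b).RB ∂vol) - 3 * |∫ b, signatureDensity (D b).RB ∂vol| ∧
    -- its consequence with the volume of the base
    7 * lam ^ 2 * vol.real Set.univ / (48 * Real.pi ^ 2) ≤
        2 * (∫ b, eulerDensity (D b).RB ∂vol) - 3 * |∫ b, signatureDensity (D b).RB ∂vol| ∧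
    -- rigidity for nonpositive Einstein constant
    (lam ≤ 0 → ∀ b, (∀ i j a, (D b).F i j a = 0) ∧
      ∀ i j, ric (D b).RB i j = if i = j then lam else 0) := by
  have hp : (0 : ℝ) < 48 * Real.pi ^ 2 := by positivity
  have ie : Integrable (fun b => eulerDensity (D b).RB) vol :=
    he.integrable_of_hasCompactSupport (HasCompactSupport.of_compactSpace _)
  have isg : Integrable (fun b => signatureDensity (D b).RB) vol :=
    hsg.integrable_of_hasCompactSupport (HasCompactSupport.of_compactSpace _)
  have is : Integrable (fun b => (scal (D b).RB - 5 * lam) ^ 2 + 7 * lam ^ 2) vol :=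
    (((hs.sub continuous_const).pow 2).add continuous_const).integrable_of_hasCompactSupport
      (HasCompactSupport.of_compactSpace _)
  have main : (∫ b, ((scal (D b).RB - 5 * lam) ^ 2 + 7 * lam ^ 2) ∂vol) / (48 * Real.pi ^ 2) ≤
      2 * (∫ b, eulerDensity (D b).RB ∂vol) - 3 * |∫ b, signatureDensity (D b).RB ∂vol| := by
    rw [← integral_div]
    have h1 : ∫ b, ((scal (D b).RB - 5 * lam) ^ 2 + 7 * lam ^ 2) / (48 * Real.pi ^ 2) ∂vol ≤
        ∫ b, (2 * eulerDensity (D b).RB - 3 * |signatureDensity (D b).RB|) ∂vol :=
      integral_mono (is.div_const _) ((ie.const_mul 2).sub (isg.abs.const_mul 3))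
        fun b => pointwise (D b)
    rw [integral_sub (ie.const_mul 2) (isg.abs.const_mul 3), integral_const_mul,
      integral_const_mul] at h1
    have h2 := abs_integral_le_integral_abs (f := fun b => signatureDensity (D b).RB) (μ := vol)
    linarith
  refine ⟨main, le_trans ?_ main, fun hl b => (D b).flat_of_nonpos hl⟩
  apply div_le_div_of_nonneg_right _ hp.le
  have h3 : ∫ _ : B, 7 * lam ^ 2 ∂vol ≤
      ∫ b, ((scal (D b).RB - 5 * lam) ^ 2 + 7 * lam ^ 2) ∂vol :=
    integral_mono (integrable_const _) is fun b => by
      have := sq_nonneg (scal (D b).RB - 5 * lam)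
      show 7 * lam ^ 2 ≤ _
      linarith
  rw [integral_const, smul_eq_mul] at h3
  linarith

end Pool.Agent.Results.MP_ebfab8_gt.SubmersionHitchinThorpe
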